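import Pool.Agent.L0h98.RF.Def

set_option autoImplicit false

/-!
# Project RF, module INS: sets with many inner edges
-/

namespace Pool.Agent.L0h92.RF

open Finset Classical
open Pool.Agent.L0h98.GS (Hf eC)
open Pool.Agent.N404.LF (cnt)
open Pool.Agent.L0h98.RF

lemma card_lab {V : Type} {m : ℕ} (a : Hf m → V) (X : Finset V) :
    (univ.filter fun x => a x ∈ X).card = sz a X := by
  unfold sz cnt
  rw [Finset.card_eq_sum_card_fiberwise (f := a) (t := X) (by
    intro x hx
    rw [mem_coe, mem_filter] at hx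
    exact hx.2)]
  refine sum_congr rfl fun v hv => ?_
  congr 1
  ext x
  rw [mem_filter, mem_filter, mem_filter]
  constructor
  · rintro ⟨_, h⟩
    exact ⟨mem_univ _, h⟩
  · rintro ⟨_, h⟩
    exact ⟨⟨mem_univ _, by rw [h]; exact hv⟩, h⟩

theorem t_INS (h : S_MPX) : S_INS := by
  intro V m a X e he
  obtain ⟨T, hT⟩ : ∃ T : Finset (Hf m), T = univ.filter fun x => a x ∈ X := ⟨_, rfl⟩
  have hTc : T.card = sz a X := by
    rw [hT, ← card_lab a X]
  have hH : Fintype.card (Hf m) = 2 * m := by
    rw [Fintype.card_prod, Fintype.card_fin, Fintype.card_bool, mul_comm]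
  have hsub : (univ.filter fun π : Equiv.Perm (Hf m) => e ≤ eC a π X) ⊆
      ((univ : Finset (Fin m)).powersetCard e).biUnion fun I =>
        univ.filter fun π : Equiv.Perm (Hf m) => ∀ x ∈ I ×ˢ (univ : Finset Bool), π x ∈ T := by
    intro π hπ
    rw [mem_filter] at hπ
    obtain ⟨I, hI, hIc⟩ := Finset.exists_subset_card_eq hπ.2
    rw [mem_biUnion]
    refine ⟨I, mem_powersetCard.2 ⟨subset_univ _, hIc⟩, ?_⟩
    rw [mem_filter]
    refine ⟨mem_univ _, ?_⟩
    rintro ⟨i, b⟩ hx
    rw [mem_product] at hx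
    have h1 := hI hx.1
    rw [mem_filter] at h1
    rw [hT, mem_filter]
    refine ⟨mem_univ _, ?_⟩
    cases b
    · exact h1.2.1
    · exact h1.2.2
  have hle := (card_le_card hsub).trans card_biUnion_le
  have hone : ∀ I ∈ (univ : Finset (Fin m)).powersetCard e,
      (2 * m).descFactorial (2 * e) * (univ.filter fun π : Equiv.Perm (Hf m) =>
        ∀ x ∈ I ×ˢ (univ : Finset Bool), π x ∈ T).card ≤
      (sz a X).descFactorial (2 * e) * (2 * m).factorial := by
    intro I hI
    have h1 := h (Hf m) (I ×ˢ univ) T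
    rw [card_product, (mem_powersetCard.1 hI).2, card_univ, Fintype.card_bool, hH, hTc,
      mul_comm e 2] at h1
    convert h1
  calc (2 * m).descFactorial (2 * e) *
      (univ.filter fun π : Equiv.Perm (Hf m) => e ≤ eC a π X).card ≤
      (2 * m).descFactorial (2 * e) * ∑ I ∈ (univ : Finset (Fin m)).powersetCard e,
        (univ.filter fun π : Equiv.Perm (Hf m) =>
          ∀ x ∈ I ×ˢ (univ : Finset Bool), π x ∈ T).card := Nat.mul_le_mul_left _ hle
    _ = ∑ I ∈ (univ : Finset (Fin m)).powersetCard e, (2 * m).descFactorial (2 * e) *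
        (univ.filter fun π : Equiv.Perm (Hf m) =>
          ∀ x ∈ I ×ˢ (univ : Finset Bool), π x ∈ T).card := mul_sum _ _ _
    _ ≤ ∑ I ∈ (univ : Finset (Fin m)).powersetCard e,
        (sz a X).descFactorial (2 * e) * (2 * m).factorial := sum_le_sum hone
    _ = _ := by
      rw [sum_const, card_powersetCard, card_univ, Fintype.card_fin, smul_eq_mul, mul_assoc]

end Pool.Agent.L0h92.RF
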